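import Pool.Agent.H38.UZ.TarZ

/-!
# MP_f6fd33_lc, PAS: the pass (assembly of the construction of length `κ`)
-/

set_option linter.unusedVariables false

open Ordinal Order Set
open scoped ZFSet

namespace SE.UZ

open SF

theorem PAS.mem_ut {b : BS} {κ T i : V} : i ∈ b.ut κ T ↔ ∃ ξ ∈ κ, i ∈ b.u (tK T ξ) := by
  unfold BS.ut
  rw [ZFSet.mem_sUnion]
  constructor
  · rintro ⟨z, hz, hi⟩
    obtain ⟨ξ, hξ, rfl⟩ := mem_imS.1 hz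
    exact ⟨ξ, hξ, hi⟩
  · rintro ⟨ξ, hξ, hi⟩
    exact ⟨_, mem_imS.2 ⟨ξ, hξ, rfl⟩, hi⟩

theorem pf_PAS (hY11 : T_Y11) (hY13 : T_Y13) (hY14 : T_Y14) (hRC : T_RC) (hZR : T_ZR) :
    T_PAS := by
  intro D κ b hA hok I F Z ξ0 v0 w0 hP
  obtain ⟨A, S1, S2, S3, hNA, hN1, hN2, hN3, hA0, h1, h2, h3⟩ :=
    hY14 D κ b hA hok I F Z ξ0 v0 w0 hP
  obtain ⟨z1, z2, z3, z4, z5, z6, -⟩ := hZR D κ b hA hok
  have hmi : ∀ {x y : V}, x ∈ insert y y ↔ x = y ∨ x ∈ y := fun {x y} => ZFSet.mem_insert_iff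
  have htr : ∀ ξ ∈ κ, ∀ η ∈ ξ, ∀ ζ ∈ η, ζ ∈ ξ := fun ξ hξ η hη ζ hζ =>
    ((z4 η (z1 ξ hξ η hη) ξ hξ).1.2 (Or.inl hη)) hζ
  obtain ⟨T, hT, hTr, t1, t2, t3⟩ := hRC D κ hA A S1 S2 S3 hNA hN1 hN2 hN3 (by
    intro ξ hξ f hf he hg hr hs
    have hPf : b.Pf D κ I F Z ξ0 v0 w0 ξ f := by
      refine ⟨hf, he, ?_, ?_, ?_⟩
      · intro η hη
        exact (h1 η (z1 ξ hξ η hη) _ (hg η hη).1).1 (hg η hη).2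
      · intro η hη ζ hζ
        exact (h2 η (z1 ξ hξ η hη) ζ hζ _ (hg ζ (htr ξ hξ η hη ζ hζ)).1 _ (hg η hη).1).1
          (hr η hη ζ hζ)
      · intro η hη hη'
        exact (h3 η (z1 ξ hξ η hη) _ (hg η hη).1 _ (hg _ hη').1).1
          (hs _ hη' η (hmi.2 (Or.inl rfl)) rfl)
    rcases z5 ξ hξ with ⟨η, hη, rfl⟩ | hlim
    · obtain ⟨q, q1, q2, q3⟩ := hY11 D κ b hA hok I F Z ξ0 v0 w0 hP η (z1 _ hξ η hη) f hPf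
      have hqA : q ∈ A := hA0 _ hξ q q1
      refine ⟨q, hqA, (h1 _ hξ q hqA).2 q1, fun ζ hζ =>
        (h2 _ hξ ζ hζ _ (hg ζ hζ).1 q hqA).2 (q2 ζ hζ), fun ζ hζ e => ?_⟩
      have : ζ = η := by
        rcases hmi.1 hζ with h | h
        · exact h
        · have h4 : η ∈ insert ζ ζ := e ▸ hη
          rcases hmi.1 h4 with h5 | h5
          · exact h5.symm
          · exact absurd h5 ((z4 ζ (z1 _ hξ ζ hζ) η (z1 _ hξ η hη)).2.2.2.1 h)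
      subst this
      exact (h3 ζ (z1 _ hξ ζ hζ) _ (hg ζ hζ).1 q hqA).2 q3
    · obtain ⟨q, q1, q2⟩ := hY13 D κ b hA hok I F Z ξ0 v0 w0 hP ξ hξ hlim f hPf
      have hqA : q ∈ A := hA0 _ hξ q q1
      refine ⟨q, hqA, (h1 _ hξ q hqA).2 q1, fun ζ hζ =>
        (h2 _ hξ ζ hζ _ (hg ζ hζ).1 q hqA).2 (q2 ζ hζ), fun ζ hζ e => ?_⟩
      exact absurd (e ▸ hlim ζ hζ) (z6 ξ hξ).1)
  have g1 : ∀ ξ ∈ κ, b.Pg D κ I F Z ξ0 v0 w0 ξ (app T ξ) := fun ξ hξ =>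
    (h1 ξ hξ _ (t1 ξ hξ).1).1 (t1 ξ hξ).2
  have g2 : ∀ ξ ∈ κ, ∀ η ∈ ξ, b.Pr2 D η ξ (app T η) (app T ξ) := fun ξ hξ η hη =>
    (h2 ξ hξ η hη _ (t1 η (z1 ξ hξ η hη)).1 _ (t1 ξ hξ).1).1 (t2 ξ hξ η hη)
  have g3 : ∀ ξ ∈ κ, b.Pr3 D ξ (app T ξ) (app T (insert ξ ξ)) := fun ξ hξ =>
    (h3 ξ hξ _ (t1 ξ hξ).1 _ (t1 _ (z2 ξ hξ).2.2).1).1 (t3 ξ hξ)
  have hTw : b.Tw D κ T := by
    refine ⟨hT, hTr, fun ξ hξ => (g1 ξ hξ).w, fun ξ hξ => (g1 ξ hξ).tm, ?_, ?_, ?_⟩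
    · intro ξ hξ η hη h
      exact (g2 η hη ξ h).le
    · intro ξ hξ ζ hζ η hη h4 h5
      have h6 : ξ ∈ η := by
        rcases (z4 ξ hξ ζ hζ).1.1 h4 with h | h
        · exact htr η hη ζ h5 ξ h
        · exact h ▸ h5
      exact (g2 η hη ξ h6).t1 ζ h4 h5
    · intro ξ hξ
      exact (g3 ξ hξ).t2
  refine ⟨T, ⟨hTw, fun ξ hξ => (g3 ξ hξ).r0, fun ξ hξ => (g3 ξ hξ).r1,
    fun ξ hξ => (g3 ξ hξ).r4⟩, ?_, ?_, ?_⟩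
  · intro v hv
    exact ⟨hP.t v hv, hTw, fun ξ hξ => ((g1 ξ hξ).i v hv).symm, fun ξ hξ => (g1 ξ hξ).le v hv⟩
  · intro h0 i hi
    have h4 : insert ξ0 ξ0 ∈ κ := (z2 ξ0 h0).2.2
    exact PAS.mem_ut.2 ⟨_, h4, (g1 _ h4).c0 h0 (hmi.2 (Or.inl rfl)) hi⟩
  · intro i hi hn hn0
    obtain ⟨ξ, hξ, hi'⟩ := PAS.mem_ut.1 hi
    exact (g1 ξ hξ).nl i hi' hn hn0

end SE.UZ
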