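import Pool.Agent.H45.UZ.TarA

/-!
# MP_f6fd33_lc, QF4 (locality): a family of properties decided by the restrictions to `ρ1` and to `ρ2`
is decided by the restriction to `ρ1 ∩ ρ2`
-/

set_option linter.unusedVariables false

open Ordinal Order Set
open scoped ZFSet

namespace SE.UZ

open SF

namespace QF4

/-- `r` is below an element of `O_u` -/
def Bx (P1 O1 u r : V) : Prop := ∃ q1 ∈ P1, ZFSet.pair u q1 ∈ O1 ∧ Le r q1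

/-- `q` and `pu` force that the generic filter contains an element of `O_u` -/
def Fx (Pu pu P1 O1 u q : V) : Prop :=
  ∀ r ∈ Pu, Le r q → Le r pu → ∃ r' ∈ Pu, Le r' r ∧ Bx P1 O1 u r'

/-- `q` is incompatible with all elements of `O_u` -/
def Nx (P2 O2 u q : V) : Prop := ∀ a ∈ P2, ZFSet.pair u a ∈ O2 → ∀ b ∈ P2, ¬ (Le b q ∧ Le b a)

theorem nsep {M : V → Prop} (k : ZFm M) {R : (V → Prop) → (ℕ → V) → Prop} (hR : Dfb ZFm R)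
    {a : V} {v : ℕ → V} (ha : M a) (hv : In M v) : M (a.sep fun x => R M (cons x v)) := by
  obtain ⟨φ, hφ⟩ := hR
  have h1 := k.sep φ v a hv ha
  convert h1 using 1
  ext x
  simp only [ZFSet.mem_sep]
  exact and_congr_right fun hx => (hφ M k _ (hv.cons (k.trans _ ha x hx))).symm

theorem inC {M : V → Prop} {a : V} (h : M a) : In M (fun _ => a) := fun _ => h

variable (hLe : Dfb ZFm (fun _ v => Le (v 0) (v 1)))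
include hLe

theorem dBx : Dfb ZFm (fun _ v => Bx (v 0) (v 1) (v 2) (v 3)) :=
  (Dfb.bex ktr_zfm (Tm.var 0) (R := fun _ v => ZFSet.pair (v 3) (v 0) ∈ v 2 ∧ Le (v 4) (v 0))
    ((Dfb.pairMem (Tm.var 3) (Tm.var 0) (Tm.var 2)).and (hLe.at2 (Tm.var 4) (Tm.var 0)))).congr
      fun _ _ _ _ => Iff.rfl

theorem dBx4 {f g h l : (V → Prop) → (ℕ → V) → V} (hf : Tm ZFm f) (hg : Tm ZFm g)
    (hh : Tm ZFm h) (hl : Tm ZFm l) :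
    Dfb ZFm (fun M v => Bx (f M v) (g M v) (h M v) (l M v)) :=
  ((dBx hLe).comp (args [f, g, h, l]) (tm_args _ (by
    intro a ha; simp only [List.mem_cons, List.not_mem_nil, or_false] at ha
    rcases ha with rfl | rfl | rfl | rfl <;> assumption)))

theorem dFx : Dfb ZFm (fun _ v => Fx (v 0) (v 1) (v 2) (v 3) (v 4) (v 5)) := by
  have h1 : Dfb ZFm (fun _ v => ∃ r' ∈ v 1, Le r' (v 0) ∧ Bx (v 3) (v 4) (v 5) r') :=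
    (Dfb.bex ktr_zfm (Tm.var 1) (R := fun _ v => Le (v 0) (v 1) ∧ Bx (v 4) (v 5) (v 6) (v 0))
      ((hLe.at2 (Tm.var 0) (Tm.var 1)).and
        (dBx4 hLe (Tm.var 4) (Tm.var 5) (Tm.var 6) (Tm.var 0)))).congr fun _ _ _ _ => Iff.rfl
  exact (Dfb.ball ktr_zfm (Tm.var 0) (R := fun _ v => Le (v 0) (v 6) → Le (v 0) (v 2) →
    ∃ r' ∈ v 1, Le r' (v 0) ∧ Bx (v 3) (v 4) (v 5) r')
    ((hLe.at2 (Tm.var 0) (Tm.var 6)).imp ((hLe.at2 (Tm.var 0) (Tm.var 2)).imp h1))).congr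
      fun _ _ _ _ => Iff.rfl

theorem dFx6 {f g h l m n : (V → Prop) → (ℕ → V) → V} (hf : Tm ZFm f) (hg : Tm ZFm g)
    (hh : Tm ZFm h) (hl : Tm ZFm l) (hm : Tm ZFm m) (hn : Tm ZFm n) :
    Dfb ZFm (fun M v => Fx (f M v) (g M v) (h M v) (l M v) (m M v) (n M v)) :=
  ((dFx hLe).comp (args [f, g, h, l, m, n]) (tm_args _ (by
    intro a ha; simp only [List.mem_cons, List.not_mem_nil, or_false] at ha
    rcases ha with rfl | rfl | rfl | rfl | rfl | rfl <;> assumption)))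

theorem dNx : Dfb ZFm (fun _ v => Nx (v 1) (v 2) (v 3) (v 0)) := by
  have h1 : Dfb ZFm (fun _ v => ∀ b ∈ v 2, ¬ (Le b (v 1) ∧ Le b (v 0))) :=
    (Dfb.ball ktr_zfm (Tm.var 2) (R := fun _ v => ¬ (Le (v 0) (v 2) ∧ Le (v 0) (v 1)))
      (((hLe.at2 (Tm.var 0) (Tm.var 2)).and (hLe.at2 (Tm.var 0) (Tm.var 1))).not)).congr
        fun _ _ _ _ => Iff.rfl
  exact (Dfb.ball ktr_zfm (Tm.var 1) (R := fun _ v => ZFSet.pair (v 4) (v 0) ∈ v 3 →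
    ∀ b ∈ v 2, ¬ (Le b (v 1) ∧ Le b (v 0)))
    ((Dfb.pairMem (Tm.var 4) (Tm.var 0) (Tm.var 3)).imp h1)).congr fun _ _ _ _ => Iff.rfl

/-- the set of the conditions below an element of `O_u` -/
theorem nBx {M : V → Prop} (k : ZFm M) {a P1 O1 u : V} (h0 : M a) (h1 : M P1) (h2 : M O1)
    (h3 : M u) : M (a.sep fun r => Bx P1 O1 u r) :=
  nsep k (R := fun _ v => Bx (v 1) (v 2) (v 3) (v 0))
    (dBx4 hLe (Tm.var 1) (Tm.var 2) (Tm.var 3) (Tm.var 0)) h0 (((inC h3).cons h2).cons h1)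

theorem nO {M : V → Prop} (k : ZFm M) {a Pu pu P1 O1 : V} (h0 : M a) (h1 : M Pu) (h2 : M pu)
    (h3 : M P1) (h4 : M O1) : M (a.sep fun z => Fx Pu pu P1 O1 (fst z) (snd z)) :=
  nsep k (R := fun _ v => Fx (v 1) (v 2) (v 3) (v 4) (fst (v 0)) (snd (v 0)))
    (dFx6 hLe (Tm.var 1) (Tm.var 2) (Tm.var 3) (Tm.var 4) (Tm.fst (Tm.var 0))
      (Tm.snd (Tm.var 0))) h0 ((((inC h4).cons h3).cons h2).cons h1)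

theorem nFx {M : V → Prop} (k : ZFm M) {a Pu pu P1 O1 u : V} (h0 : M a) (h1 : M Pu) (h2 : M pu)
    (h3 : M P1) (h4 : M O1) (h5 : M u) : M (a.sep fun q => Fx Pu pu P1 O1 u q ∨
      ∀ q' ∈ a, Le q' q → ¬ Fx Pu pu P1 O1 u q') := by
  have e1 : Dfb ZFm (fun _ v => Fx (v 1) (v 2) (v 3) (v 4) (v 5) (v 0)) :=
    dFx6 hLe (Tm.var 1) (Tm.var 2) (Tm.var 3) (Tm.var 4) (Tm.var 5) (Tm.var 0)
  have e2 : Dfb ZFm (fun _ v => ∀ q' ∈ v 6, Le q' (v 0) →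
      ¬ Fx (v 1) (v 2) (v 3) (v 4) (v 5) q') :=
    (Dfb.ball ktr_zfm (Tm.var 6) (R := fun _ v => Le (v 0) (v 1) →
      ¬ Fx (v 2) (v 3) (v 4) (v 5) (v 6) (v 0)) ((hLe.at2 (Tm.var 0) (Tm.var 1)).imp
        (dFx6 hLe (Tm.var 2) (Tm.var 3) (Tm.var 4) (Tm.var 5) (Tm.var 6) (Tm.var 0)).not)).congr
      fun _ _ _ _ => Iff.rfl
  exact nsep k (e1.or e2) (v := cons Pu (cons pu (cons P1 (cons O1 (cons u (fun _ => a)))))) h0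
    ((((((inC h0).cons h5).cons h4).cons h3).cons h2).cons h1)

theorem nNx {M : V → Prop} (k : ZFm M) {P2 O2 u : V} (h1 : M P2) (h2 : M O2)
    (h3 : M u) : M (P2.sep fun q => Bx P2 O2 u q ∨ Nx P2 O2 u q) :=
  nsep k (R := fun _ v => Bx (v 1) (v 2) (v 3) (v 0) ∨ Nx (v 1) (v 2) (v 3) (v 0))
    ((dBx4 hLe (Tm.var 1) (Tm.var 2) (Tm.var 3) (Tm.var 0)).or (dNx hLe)) h1
    (((inC h3).cons h2).cons h1)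

end QF4

open QF4

theorem pf_QF4 (hBA : T_BA) (hBBa : T_BBa) (hBC : T_BC) (hBD : T_BD) (hBF : T_BF) (hBJ : T_BJ)
    (hBL : T_BL) : T_QF4 := by
  obtain ⟨-, -, -, -, hA5, -, hA7⟩ := hBA
  obtain ⟨hrst, -, -, -, -, -, -, -, -, -, -, hLe, -⟩ := hBBa
  obtain ⟨-, -, -, hC4, hC5, hC6, hC7, -⟩ := hBC
  obtain ⟨hD1, hD2, hD3, hD4, hD5, hD6, hD7, -⟩ := hBD
  obtain ⟨hF1, hF2⟩ := hBF
  intro D hD ρ ρ1 ρ2 hN hc hN1 hN2 hs1 hs2 ht1 ht2 p hp O1 O2 hO1 hO2 H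
  obtain ⟨hL, hHt, hHN, hPR, hG⟩ := hBJ D hD
  have zN : ZFm D.N := hD.zfc.toZFCm.toZFm
  have hcl := (hA7 D.L ρ hc).2.2
  have hc1 : Cld D.L ρ1 := hcl ρ1 hs1 ht1
  have hc2 : Cld D.L ρ2 := hcl ρ2 hs2 ht2
  obtain ⟨hcu, hc12⟩ := hA5 D.L ρ1 ρ2 hc1 hc2
  have hsu : ρ1 ∪ ρ2 ⊆ ρ := fun i hi => (ZFSet.mem_union.1 hi).elim (fun h => hs1 h) fun h => hs2 h
  have hs12 : ρ1 ∩ ρ2 ⊆ ρ := fun i hi => hs1 (ZFSet.mem_inter.1 hi).1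
  have htu : Tr (ρ1 ∪ ρ2) := fun i hi => (hcu i hi).2
  have ht12 : Tr (ρ1 ∩ ρ2) := fun i hi => (hc12 i hi).2
  have hNu : D.N (ρ1 ∪ ρ2) := (Tm.union (Tm.var 0) (Tm.var 1)).1 D.N zN
    (cons ρ1 (fun _ => ρ2)) ((inC hN2).cons hN1)
  have hN12 : D.N (ρ1 ∩ ρ2) := (Tm.inter (Tm.var 0) (Tm.var 1)).1 D.N zN
    (cons ρ1 (fun _ => ρ2)) ((inC hN2).cons hN1)
  have m12 : ∀ i, i ∈ ρ1 ∩ ρ2 ↔ i ∈ ρ1 ∧ i ∈ ρ2 := fun i => ZFSet.mem_inter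
  have mu : ∀ i, i ∈ ρ1 ∪ ρ2 ↔ i ∈ ρ1 ∨ i ∈ ρ2 := fun i => ZFSet.mem_union
  have i1 : ρ1 ∩ ρ2 ⊆ ρ1 := fun i hi => ((m12 i).1 hi).1
  have i2 : ρ1 ∩ ρ2 ⊆ ρ2 := fun i hi => ((m12 i).1 hi).2
  have u1 : ρ1 ⊆ ρ1 ∪ ρ2 := fun i hi => (mu i).2 (Or.inl hi)
  have u2 : ρ2 ⊆ ρ1 ∪ ρ2 := fun i hi => (mu i).2 (Or.inr hi)
  have i12u : ρ1 ∩ ρ2 ⊆ ρ1 ∪ ρ2 := fun i hi => u1 (i1 hi)
  -- conditions
  have hFF : ∀ {σ q : V}, q ∈ D.P σ → FF q := fun {σ q} hq => ((hC4 D.L σ q).1 hq).1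
  have hdm : ∀ {σ q : V}, q ∈ D.P σ → dm q ⊆ σ := fun {σ q} hq => ((hC4 D.L σ q).1 hq).2.1
  have hinc : ∀ {σ τ q : V}, σ ⊆ τ → q ∈ D.P σ → q ∈ D.P τ := fun {σ τ q} h hq =>
    hD2 D.L σ τ q hq fun i hi => h (hdm hq hi)
  have hres : ∀ {σ τ q : V}, Tr σ → q ∈ D.P τ → rst σ q ∈ D.P σ ∧ Le q (rst σ q) :=
    fun {σ τ q} h hq =>
      have h1 := hD3 D.L τ σ q hq (fun i hi _ => h i hi)
      ⟨h1.1, h1.2.2⟩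
  have hself : ∀ {σ τ q : V}, σ ⊆ τ → q ∈ D.P σ → rst τ q = q := fun {σ τ q} h hq =>
    (hC5 τ q (hFF hq)).2.2.2 fun i hi => h (hdm hq hi)
  have htr : ∀ {σ a b c : V}, a ∈ D.P σ → b ∈ D.P σ → c ∈ D.P σ → Le a b → Le b c → Le a c :=
    fun {σ a b c} ha hb hc' hab hbc => hD5 D.L σ c b a hc' hb ha hab hbc
  have hmon : ∀ {σ τ a b : V} (S : V), a ∈ D.P σ → b ∈ D.P τ → Le a b → Le (rst S a) (rst S b) :=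
    fun {σ τ a b} S ha hb hab => hD6 S b a (hFF hb) (hFF ha) hab
  -- filters
  have hup : ∀ {σ : V}, D.N σ → Cld D.L σ → ∀ {G : V}, D.Gn σ G → ∀ {a b : V}, a ∈ G → b ∈ D.P σ →
      Le a b → b ∈ G := fun {σ} h1 h2 {G} h3 {a b} h4 h5 h6 =>
    ((hG σ h1 h2).2 G h3).2.1.2.2.1 a h4 b h5 h6
  have hdir : ∀ {σ : V}, D.N σ → Cld D.L σ → ∀ {G : V}, D.Gn σ G → ∀ {a b : V}, a ∈ G → b ∈ G →
      ∃ t ∈ G, Le t a ∧ Le t b := fun {σ} h1 h2 {G} h3 {a b} h4 h5 =>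
    have h6 := ((hG σ h1 h2).2 G h3).2.1.2.2.2.1 b h5 a h4
    ⟨_, h6.2.1, h6.2.2.1, h6.2.2.2⟩
  have hsb : ∀ {σ : V}, D.N σ → Cld D.L σ → ∀ {G : V}, D.Gn σ G → ∀ {a : V}, a ∈ G → a ∈ D.P σ :=
    fun {σ} h1 h2 {G} h3 {a} h4 => ((hG σ h1 h2).2 G h3).2.1.1 h4
  have hmeet : ∀ {σ : V}, D.N σ → Cld D.L σ → ∀ {G : V}, D.Gn σ G → ∀ (X q : V), D.N X → q ∈ G →
      (∀ a ∈ D.P σ, Le a q → ∃ r ∈ X, r ∈ D.P σ ∧ Le r a) → ∃ r ∈ G, r ∈ X ∧ Le r q :=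
    fun {σ} h1 h2 {G} h3 X q h4 h5 h6 => ((hG σ h1 h2).2 G h3).2.2 X q h4 h5 h6
  have hgs : ∀ {G : V}, D.Gn ρ G → ∀ {σ : V}, D.N σ → σ ⊆ ρ → Tr σ → D.Gn σ (gs G σ) ∧
      (∀ q, q ∈ gs G σ ↔ q ∈ G ∧ dm q ⊆ σ) ∧ ∀ q ∈ G, rst σ q ∈ gs G σ := fun {G} h1 {σ} h2 h3 h4 =>
    have h5 := (hBL D hD ρ G hN hc h1).2 σ h2 h3 h4
    ⟨h5.1, h5.2.2.2.1, h5.2.2.2.2.1⟩
  -- extension of a condition on the union to a generic filter which contains `p`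
  set pu : V := rst (ρ1 ∪ ρ2) p with hpu
  have hpuP : pu ∈ D.P (ρ1 ∪ ρ2) := (hres htu hp).1
  have hgen : ∀ t ∈ D.P (ρ1 ∪ ρ2), Le t pu → ∃ G, D.Gn ρ G ∧ p ∈ G ∧ t ∈ G := by
    intro t ht hle
    obtain ⟨-, k2, k3, k4, -⟩ := hF1 D.L ρ (ρ1 ∪ ρ2) p t hc hsu htu hp ht hle
    obtain ⟨G, hG1, hG2⟩ := (hG ρ hN hc).1 _ k2
    exact ⟨G, hG1, hup hN hc hG1 hG2 hp k4, hup hN hc hG1 hG2 (hinc hsu ht) k3⟩
  have hNP : D.N (D.P ρ) := (hPR ρ hN).1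
  have hNP1 : D.N (D.P ρ1) := (hPR ρ1 hN1).1
  have hNP2 : D.N (D.P ρ2) := (hPR ρ2 hN2).1
  have hNPu : D.N (D.P (ρ1 ∪ ρ2)) := (hPR _ hNu).1
  have hNP12 : D.N (D.P (ρ1 ∩ ρ2)) := (hPR _ hN12).1
  have hNpu : D.N pu := zN.trans _ hNPu _ hpuP
  have hNdm : D.N (dm O1) := (Tm.dm (Tm.var 0)).1 D.N zN (fun _ => O1) (inC hO1)
  refine ⟨(ZFSet.prod (dm O1) (D.P (ρ1 ∩ ρ2))).sep fun z =>
    Fx (D.P (ρ1 ∪ ρ2)) pu (D.P ρ1) O1 (fst z) (snd z), ?_, ?_, ?_⟩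
  · refine nO hLe zN ?_ hNPu hNpu hNP1 hO1
    exact (Tm.prod (Tm.var 0) (Tm.var 1)).1 D.N zN (cons (dm O1) (fun _ => D.P (ρ1 ∩ ρ2)))
      ((inC hNP12).cons hNdm)
  · intro u q h
    exact (ZFSet.pair_mem_prod.1 (ZFSet.mem_sep.1 h).1).2
  have mO : ∀ u q, ZFSet.pair u q ∈ (ZFSet.prod (dm O1) (D.P (ρ1 ∩ ρ2))).sep (fun z =>
      Fx (D.P (ρ1 ∪ ρ2)) pu (D.P ρ1) O1 (fst z) (snd z)) ↔ (u ∈ dm O1 ∧ q ∈ D.P (ρ1 ∩ ρ2)) ∧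
      Fx (D.P (ρ1 ∪ ρ2)) pu (D.P ρ1) O1 u q := by
    intro u q
    rw [ZFSet.mem_sep, ZFSet.pair_mem_prod, fst_pair, snd_pair]
  intro u G hGn hpG
  obtain ⟨g1, g2, g3⟩ := hgs hGn hN1 hs1 ht1
  obtain ⟨g4, g5, g6⟩ := hgs hGn hN12 hs12 ht12
  constructor
  · -- forced facts hold
    rintro ⟨q, hq, hqO⟩
    obtain ⟨⟨hu, hqP⟩, hF⟩ := (mO u q).1 hqO
    obtain ⟨y, hy⟩ := mem_dm.1 hu
    have hNu' : D.N u := (zN.of_pair_mem hO1 hy).1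
    have hqG : q ∈ G := ((g5 q).1 hq).1
    have hpuG : pu ∈ G := ((hG ρ hN hc).2 G hGn).2.1.2.2.2.2 _ htu p hpG
    obtain ⟨s, hsG, hsq, hsp⟩ := hdir hN hc hGn hqG hpuG
    obtain ⟨r, hrG, hrX, -⟩ := hmeet hN hc hGn ((D.P ρ).sep fun r => Bx (D.P ρ1) O1 u r) s
      (nBx hLe zN hNP hNP1 hO1 hNu') hsG (by
        intro t ht hts
        have hsP := hsb hN hc hGn hsG
        have htq : Le t q := htr ht hsP (hinc hs12 hqP) hts hsq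
        have htp : Le t pu := htr ht hsP (hinc hsu hpuP) hts hsp
        obtain ⟨hr0, hr1⟩ := hres htu ht
        have hrq : Le (rst (ρ1 ∪ ρ2) t) q := by
          have := hmon (ρ1 ∪ ρ2) ht hqP htq
          rwa [hself i12u hqP] at this
        have hrp : Le (rst (ρ1 ∪ ρ2) t) pu := by
          have := hmon (ρ1 ∪ ρ2) ht hpuP htp
          rwa [hself (fun i hi => hi) hpuP] at this
        obtain ⟨r', hr', hle, q1, hq1, hq1O, hle1⟩ := hF _ hr0 hrq hrp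
        obtain ⟨-, k2, k3, k4, -⟩ := hF1 D.L ρ (ρ1 ∪ ρ2) t r' hc hsu htu ht hr' hle
        exact ⟨jn r' t, ZFSet.mem_sep.2 ⟨k2, q1, hq1, hq1O,
          htr k2 (hinc hsu hr') (hinc hs1 hq1) k3 hle1⟩, k2, k4⟩)
    obtain ⟨-, q1, hq1, hq1O, hle⟩ := ZFSet.mem_sep.1 hrX
    exact ⟨q1, (g2 q1).2 ⟨hup hN hc hGn hrG (hinc hs1 hq1) hle, hdm hq1⟩, hq1O⟩
  · rintro ⟨q1, hq1, hq1O⟩
    by_contra hcon
    have hu : u ∈ dm O1 := mem_dm.2 ⟨_, hq1O⟩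
    have hNu' : D.N u := (zN.of_pair_mem hO1 hq1O).1
    have hno : ∀ q ∈ gs G (ρ1 ∩ ρ2), ¬ Fx (D.P (ρ1 ∪ ρ2)) pu (D.P ρ1) O1 u q := fun q hq hF =>
      hcon ⟨q, hq, (mO u q).2 ⟨⟨hu, hsb hN12 hc12 g4 hq⟩, hF⟩⟩
    -- a condition without extensions which force
    have hemp : (∅ : V) ∈ gs G (ρ1 ∩ ρ2) := ((hG _ hN12 hc12).2 _ g4).2.1.2.1
    obtain ⟨q0, hq0G, hq0X, -⟩ := hmeet hN12 hc12 g4 _ ∅
      (nFx hLe zN hNP12 hNPu hNpu hNP1 hO1 hNu') hemp (by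
        intro a ha _
        by_cases h : ∃ q' ∈ D.P (ρ1 ∩ ρ2), Le q' a ∧ Fx (D.P (ρ1 ∪ ρ2)) pu (D.P ρ1) O1 u q'
        · obtain ⟨q', h1, h2, h3⟩ := h
          exact ⟨q', ZFSet.mem_sep.2 ⟨h1, Or.inl h3⟩, h1, h2⟩
        · exact ⟨a, ZFSet.mem_sep.2 ⟨ha, Or.inr fun q' h1 h2 h3 => h ⟨q', h1, h2, h3⟩⟩, ha,
            (hD4 D.L _ a ha).1⟩)
    obtain ⟨hq0P, hq0X⟩ := ZFSet.mem_sep.1 hq0X
    have hq0 : ∀ q' ∈ D.P (ρ1 ∩ ρ2), Le q' q0 → ¬ Fx (D.P (ρ1 ∪ ρ2)) pu (D.P ρ1) O1 u q' :=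
      hq0X.resolve_left (hno q0 hq0G)
    -- the condition `p1`
    have hq0G1 : q0 ∈ gs G ρ1 := (g2 q0).2 ⟨((g5 q0).1 hq0G).1, fun i hi => i1 (hdm hq0P hi)⟩
    obtain ⟨s, hsG, hs3, hs4⟩ := hdir hN1 hc1 g1 hq1 hq0G1
    obtain ⟨p1, hp1G, hp1s, hp1p⟩ := hdir hN1 hc1 g1 hsG (g3 p hpG)
    have hp1P : p1 ∈ D.P ρ1 := hsb hN1 hc1 g1 hp1G
    have hsP : s ∈ D.P ρ1 := hsb hN1 hc1 g1 hsG
    have hq1P : q1 ∈ D.P ρ1 := hsb hN1 hc1 g1 hq1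
    have hp1q1 : Le p1 q1 := htr hp1P hsP hq1P hp1s hs3
    have hp1q0 : Le p1 q0 := htr hp1P hsP (hinc i1 hq0P) hp1s hs4
    have hqP : rst (ρ1 ∩ ρ2) p1 ∈ D.P (ρ1 ∩ ρ2) := (hres ht12 hp1P).1
    have hqq0 : Le (rst (ρ1 ∩ ρ2) p1) q0 := by
      have := hmon (ρ1 ∩ ρ2) hp1P hq0P hp1q0
      rwa [hself (fun i hi => hi) hq0P] at this
    have hnF := hq0 _ hqP hqq0
    unfold Fx at hnF
    push Not at hnF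
    obtain ⟨r, hrP, hrq, hrp, hr⟩ := hnF
    -- the filter `G'`
    obtain ⟨G', hG', hpG', hrG'⟩ := hgen r hrP hrp
    obtain ⟨a1, a2, a3⟩ := hgs hG' hN1 hs1 ht1
    obtain ⟨b1, b2, b3⟩ := hgs hG' hN2 hs2 ht2
    have hn1 : ¬ ∃ q ∈ gs G' ρ1, ZFSet.pair u q ∈ O1 := by
      rintro ⟨q1', h1, h2⟩
      have h1P : q1' ∈ D.P ρ1 := hsb hN1 hc1 a1 h1
      obtain ⟨t, htG, ht3, ht4⟩ := hdir hN hc hG' hrG' ((a2 q1').1 h1).1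
      have htP := hsb hN hc hG' htG
      refine hr (rst (ρ1 ∪ ρ2) t) (hres htu htP).1 ?_ ⟨q1', h1P, h2, ?_⟩
      · have := hmon (ρ1 ∪ ρ2) htP hrP ht3
        rwa [hself (fun i hi => hi) hrP] at this
      · have := hmon (ρ1 ∪ ρ2) htP h1P ht4
        rwa [hself u1 h1P] at this
    have hn2 : ¬ ∃ q ∈ gs G' ρ2, ZFSet.pair u q ∈ O2 := fun h => hn1 ((H u G' hG' hpG').2 h)
    obtain ⟨c, hcG, hcr, hcp⟩ := hdir hN2 hc2 b1 (b3 r hrG') (b3 p hpG')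
    obtain ⟨p2, hp2G, hp2X, hp2c⟩ := hmeet hN2 hc2 b1 _ c
      (nNx hLe zN hNP2 hO2 hNu') hcG (by
        intro a ha _
        by_cases h : ∃ b ∈ D.P ρ2, Le b a ∧ Bx (D.P ρ2) O2 u b
        · obtain ⟨b, h1, h2, h3⟩ := h
          exact ⟨b, ZFSet.mem_sep.2 ⟨h1, Or.inl h3⟩, h1, h2⟩
        · exact ⟨a, ZFSet.mem_sep.2 ⟨ha, Or.inr fun x h1 h2 b h3 h4 =>
            h ⟨b, h3, h4.1, x, h1, h2, h4.2⟩⟩, ha, (hD4 D.L _ a ha).1⟩)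
    obtain ⟨hp2P, hp2X⟩ := ZFSet.mem_sep.1 hp2X
    have hNx : Nx (D.P ρ2) O2 u p2 := by
      refine hp2X.resolve_left ?_
      rintro ⟨a, ha, haO, hle⟩
      exact hn2 ⟨a, hup hN2 hc2 b1 hp2G ha hle, haO⟩
    have hcP : c ∈ D.P ρ2 := hsb hN2 hc2 b1 hcG
    have hp2r : Le p2 (rst ρ2 r) := htr hp2P hcP (hres ht2 hrP).1 hp2c hcr
    have hp2p : Le p2 (rst ρ2 p) := htr hp2P hcP (hres ht2 hp).1 hp2c hcp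
    -- amalgamation
    have hx : Le (rst (ρ1 ∩ ρ2) p2) (rst (ρ1 ∩ ρ2) p1) := by
      have h1 := hmon (ρ1 ∩ ρ2) hp2P (hres ht2 hrP).1 hp2r
      rw [hC7 _ _ _ i2] at h1
      have h2 := hmon (ρ1 ∩ ρ2) hrP hqP hrq
      rw [hself (fun i hi => hi) hqP] at h2
      exact htr (hres ht12 hp2P).1 (hres ht12 hrP).1 hqP h1 h2
    obtain ⟨-, k2, k3, k4, k5, -⟩ := hF1 D.L ρ1 (ρ1 ∩ ρ2) p1 (rst (ρ1 ∩ ρ2) p2) hc1 i1 ht12 hp1P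
      (hres ht12 hp2P).1 hx
    obtain ⟨l1, l2, l3, l4, l5⟩ := hF2 D.L ρ1 ρ2 (jn (rst (ρ1 ∩ ρ2) p2) p1) p2 hc1 hc2 k2 hp2P k5
    set p1' := jn (rst (ρ1 ∩ ρ2) p2) p1 with hp1'
    set t := jn p2 p1' with ht
    have hle1 : Le p1' (rst ρ1 p) := htr k2 hp1P (hres ht1 hp).1 k4 hp1p
    have htpu : Le t pu := by
      intro i hi
      obtain ⟨hi1, hi2⟩ := ((hC5 (ρ1 ∪ ρ2) p (hFF hp)).2.1 i).1 hi
      rw [show app pu i = app p i from (hC5 (ρ1 ∪ ρ2) p (hFF hp)).2.2.1 i hi2]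
      rcases (mu i).1 hi2 with h | h
      · have h1 : i ∈ dm (rst ρ1 p) := ((hC5 ρ1 p (hFF hp)).2.1 i).2 ⟨hi1, h⟩
        obtain ⟨h2, h3⟩ := hle1 i h1
        rw [← l4] at h2 h3
        rw [(hC5 ρ1 t (hFF l1)).2.2.1 i h, (hC5 ρ1 p (hFF hp)).2.2.1 i h] at h3
        exact ⟨(((hC5 ρ1 t (hFF l1)).2.1 i).1 h2).1, h3⟩
      · have h1 : i ∈ dm (rst ρ2 p) := ((hC5 ρ2 p (hFF hp)).2.1 i).2 ⟨hi1, h⟩
        obtain ⟨h2, h3⟩ := hp2p i h1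
        rw [← l5] at h2 h3
        rw [(hC5 ρ2 t (hFF l1)).2.2.1 i h, (hC5 ρ2 p (hFF hp)).2.2.1 i h] at h3
        exact ⟨(((hC5 ρ2 t (hFF l1)).2.1 i).1 h2).1, h3⟩
    obtain ⟨G'', hG'', hpG'', htG''⟩ := hgen t l1 htpu
    obtain ⟨c1, c2, c3⟩ := hgs hG'' hN1 hs1 ht1
    obtain ⟨d1, d2, d3⟩ := hgs hG'' hN2 hs2 ht2
    have e1 : p1' ∈ G'' := hup hN hc hG'' htG'' (hinc hs1 k2) l3
    have e2 : p1 ∈ G'' := hup hN hc hG'' e1 (hinc hs1 hp1P) k4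
    have e3 : q1 ∈ G'' := hup hN hc hG'' e2 (hinc hs1 hq1P) hp1q1
    have e4 : p2 ∈ G'' := hup hN hc hG'' htG'' (hinc hs2 hp2P) l2
    obtain ⟨q2, hq2, hq2O⟩ := (H u G'' hG'' hpG'').1 ⟨q1, (c2 q1).2 ⟨e3, hdm hq1P⟩, hq1O⟩
    obtain ⟨b, hb, hb1, hb2⟩ := hdir hN2 hc2 d1 ((d2 p2).2 ⟨e4, hdm hp2P⟩) hq2
    exact hNx q2 (hsb hN2 hc2 d1 hq2) hq2O b (hsb hN2 hc2 d1 hb) ⟨hb1, hb2⟩

end SE.UZ
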